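import Pool.Agent.W78.GM.Basic

/-!
Project GM, task P (helper216): the elements `wd d` of norm `d`, divisibility.
-/

set_option autoImplicit false

namespace Pool.Agent.W216.GM

open Finset Filter
open Pool.Agent.H376R2.MR Pool.Agent.H970R2.X Pool.Agent.W78.GM
open GaussianInt (toComplex)

/-- squarefree and composed of primes `≡ 1 mod 4` -/
def Gd (d : ℕ) : Prop := Squarefree d ∧ ∀ p : ℕ, p.Prime → p ∣ d → p % 4 = 1

/-- product of the chosen primes above the prime factors of `d` -/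
noncomputable def wd (d : ℕ) : GaussianInt := ∏ p ∈ d.primeFactors, gp p

lemma nm_prod (s : Finset ℕ) (f : ℕ → GaussianInt) : nm (∏ p ∈ s, f p) = ∏ p ∈ s, nm (f p) := by
  classical
  induction s using Finset.induction_on with
  | empty => simp
  | insert a s ha ih => rw [Finset.prod_insert ha, Finset.prod_insert ha, nm_mul, ih]

lemma nm_wd {d : ℕ} (hd : Gd d) : nm (wd d) = d := by
  unfold wd
  rw [nm_prod]
  rw [Finset.prod_congr rfl (g := fun p => p)]
  · exact Nat.prod_primeFactors_of_squarefree hd.1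
  · intro p hp
    have h1 := Nat.prime_of_mem_primeFactors hp
    exact gp_nm h1 (hd.2 p h1 (Nat.dvd_of_mem_primeFactors hp))

lemma Gd.pos {d : ℕ} (hd : Gd d) : 0 < d := Nat.pos_of_ne_zero hd.1.ne_zero

lemma Gd.lcm {d e : ℕ} (hd : Gd d) (he : Gd e) : Gd (Nat.lcm d e) := by
  refine ⟨?_, ?_⟩
  · rw [Nat.squarefree_iff_prime_squarefree]
    intro p hp hdvd
    have hl : Nat.lcm d e ≠ 0 := Nat.lcm_ne_zero hd.pos.ne' he.pos.ne'
    have h2 : 2 ≤ (Nat.lcm d e).factorization p := by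
      rw [← sq] at hdvd
      exact (hp.pow_dvd_iff_le_factorization hl).1 hdvd
    rw [Nat.factorization_lcm hd.pos.ne' he.pos.ne', Finsupp.sup_apply] at h2
    have h3 := hd.1.natFactorization_le_one p
    have h4 := he.1.natFactorization_le_one p
    have := max_le h3 h4
    omega
  · intro p hp hpd
    have h1 : p ∣ d * e := hpd.trans (Nat.lcm_dvd_mul d e)
    rcases (Nat.Prime.dvd_mul hp).1 h1 with h | h
    · exact hd.2 p hp h
    · exact he.2 p hp h

lemma coprime_gp {p q : ℕ} (hp : p.Prime) (hp4 : p % 4 = 1) (hq : q.Prime) (hq4 : q % 4 = 1)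
    (h : p ≠ q) : IsCoprime (gp p) (gp q) := by
  rw [(irreducible_of_nm hp (gp_nm hp hp4)).coprime_iff_not_dvd]
  intro hd
  have h1 := nm_dvd hd
  rw [gp_nm hp hp4, gp_nm hq hq4] at h1
  exact h ((Nat.prime_dvd_prime_iff_eq hp hq).1 h1)

lemma coprime_gp_star {p q : ℕ} (hp : p.Prime) (hp4 : p % 4 = 1) (hq : q.Prime) (hq4 : q % 4 = 1) :
    IsCoprime (gp p) (star (gp q)) := by
  rw [(irreducible_of_nm hp (gp_nm hp hp4)).coprime_iff_not_dvd]
  intro hd
  have h1 := nm_dvd hd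
  rw [nm_star, gp_nm hp hp4, gp_nm hq hq4] at h1
  have h2 := (Nat.prime_dvd_prime_iff_eq hp hq).1 h1
  subst h2
  have hp2 : p ≠ 2 := by
    rintro rfl
    norm_num at hp4
  exact not_dvd_star hp hp2 (gp_nm hp hp4) hd

lemma wd_dvd_iff {d : ℕ} (hd : Gd d) (z : GaussianInt) :
    wd d ∣ z ↔ ∀ p ∈ d.primeFactors, gp p ∣ z := by
  unfold wd
  constructor
  · intro h p hp
    exact (Finset.dvd_prod_of_mem _ hp).trans h
  · intro h
    refine Finset.prod_dvd_of_coprime ?_ h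
    intro p hp q hq hpq
    have h1 := Nat.prime_of_mem_primeFactors (Finset.mem_coe.1 hp)
    have h2 := Nat.prime_of_mem_primeFactors (Finset.mem_coe.1 hq)
    exact coprime_gp h1 (hd.2 p h1 (Nat.dvd_of_mem_primeFactors (Finset.mem_coe.1 hp))) h2
      (hd.2 q h2 (Nat.dvd_of_mem_primeFactors (Finset.mem_coe.1 hq))) hpq

lemma wd_lcm_dvd_iff {d e : ℕ} (hd : Gd d) (he : Gd e) (z : GaussianInt) :
    wd (Nat.lcm d e) ∣ z ↔ wd d ∣ z ∧ wd e ∣ z := by
  rw [wd_dvd_iff hd, wd_dvd_iff he, wd_dvd_iff (hd.lcm he)]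
  have h : (Nat.lcm d e).primeFactors = d.primeFactors ∪ e.primeFactors := by
    ext p
    simp only [Nat.mem_primeFactors, Finset.mem_union, ne_eq, hd.pos.ne', he.pos.ne',
      Nat.lcm_ne_zero hd.pos.ne' he.pos.ne', not_false_iff, and_true]
    constructor
    · rintro ⟨hp, hpd⟩
      have h1 : p ∣ d * e := hpd.trans (Nat.lcm_dvd_mul d e)
      rcases (Nat.Prime.dvd_mul hp).1 h1 with h | h
      · exact Or.inl ⟨hp, h⟩
      · exact Or.inr ⟨hp, h⟩
    · rintro (⟨hp, h⟩ | ⟨hp, h⟩)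
      · exact ⟨hp, h.trans (Nat.dvd_lcm_left d e)⟩
      · exact ⟨hp, h.trans (Nat.dvd_lcm_right d e)⟩
  rw [h]
  constructor
  · intro h1
    exact ⟨fun p hp => h1 p (Finset.mem_union_left _ hp),
      fun p hp => h1 p (Finset.mem_union_right _ hp)⟩
  · rintro ⟨h1, h2⟩ p hp
    rcases Finset.mem_union.1 hp with h3 | h3
    · exact h1 p h3
    · exact h2 p h3

lemma star_dvd_iff (u z : GaussianInt) : star u ∣ z ↔ u ∣ star z := by
  constructor
  · rintro ⟨t, rfl⟩
    exact ⟨star t, by rw [star_mul, star_star, mul_comm]⟩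
  · rintro ⟨t, ht⟩
    refine ⟨star t, ?_⟩
    have := congrArg star ht
    rw [star_star, star_mul, mul_comm] at this
    exact this

/-- the Gaussian integer `wd a * star (wd b)` of norm `a b` -/
noncomputable def gam (a b : ℕ) : GaussianInt := wd a * star (wd b)

lemma nm_gam {a b : ℕ} (ha : Gd a) (hb : Gd b) : nm (gam a b) = a * b := by
  unfold gam
  rw [nm_mul, nm_star, nm_wd ha, nm_wd hb]

lemma gam_dvd_iff {a b : ℕ} (ha : Gd a) (hb : Gd b) (z : GaussianInt) :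
    gam a b ∣ z ↔ wd a ∣ z ∧ wd b ∣ star z := by
  unfold gam
  rw [← star_dvd_iff]
  constructor
  · intro h
    exact ⟨(Dvd.intro _ rfl).trans h, (Dvd.intro_left _ rfl).trans h⟩
  · rintro ⟨h1, h2⟩
    refine IsCoprime.mul_dvd ?_ h1 h2
    unfold wd
    rw [star_prod]
    refine IsCoprime.prod_left (fun p hp => IsCoprime.prod_right (fun q hq => ?_))
    have h1 := Nat.prime_of_mem_primeFactors hp
    have h2 := Nat.prime_of_mem_primeFactors hq
    exact coprime_gp_star h1 (ha.2 p h1 (Nat.dvd_of_mem_primeFactors hp)) h2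
      (hb.2 q h2 (Nat.dvd_of_mem_primeFactors hq))

lemma Gd_one : Gd 1 := ⟨squarefree_one, fun _ hp h => absurd (Nat.dvd_one.1 h) hp.one_lt.ne'⟩

lemma wd_one : wd 1 = 1 := by simp [wd]

/-- a prime of norm `p > d` is not divisible by `wd d`, unless `d = 1` -/
lemma not_wd_dvd {p d : ℕ} (hp : p.Prime) {z : GaussianInt} (hz : nm z = p) (hd : Gd d)
    (h1 : d ≠ 1) (h2 : d < p) : ¬ wd d ∣ z := by
  intro h
  have h3 := nm_dvd h
  rw [nm_wd hd, hz] at h3
  rcases (Nat.dvd_prime hp).1 h3 with h4 | h4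
  · exact h1 h4
  · omega

/-! ### Abel summation over an annulus -/

lemma ann_inv (b : ℕ) : ∀ n : ℕ, 1 ≤ n → n ≤ b →
    (1 / (n : ℂ)) = 1 / (b : ℂ) + ∑ j ∈ Ico n b, 1 / ((j : ℂ) * (j + 1)) := by
  intro n hn hnb
  induction b, hnb using Nat.le_induction with
  | base => simp
  | succ m hm ih =>
    rw [Finset.sum_Ico_succ_top hm, ih]
    have h1 : (m : ℂ) ≠ 0 := by
      have : m ≠ 0 := by omega
      exact_mod_cast this
    have h2 : (m : ℂ) + 1 ≠ 0 := by exact_mod_cast (Nat.succ_ne_zero m)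
    push_cast
    field_simp
    ring

lemma abel_ann (f : GaussianInt → ℂ) (a b : ℕ) (V : ℝ) (ha : 1 ≤ a) (hab : a ≤ b)
    (hV : ∀ j : ℕ, a ≤ j → j ≤ b → ‖∑ z ∈ ann a j, f z‖ ≤ V) :
    ‖∑ z ∈ ann a b, f z / (nm z : ℂ)‖ ≤ V / a := by
  classical
  have hV0 : 0 ≤ V := le_trans (norm_nonneg _) (hV a le_rfl hab)
  have h1 : ∑ z ∈ ann a b, f z / (nm z : ℂ) =
      (1 / (b : ℂ)) * ∑ z ∈ ann a b, f z +
        ∑ j ∈ Ico a b, (1 / ((j : ℂ) * (j + 1))) * ∑ z ∈ ann a j, f z := by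
    have h2 : ∀ z ∈ ann (a : ℝ) (b : ℝ), f z / (nm z : ℂ) = (1 / (b : ℂ)) * f z +
        ∑ j ∈ Ico a b, (1 / ((j : ℂ) * (j + 1))) * (if nm z ≤ j then f z else 0) := by
      intro z hz
      rw [mem_ann] at hz
      have hz2 : a < nm z := by exact_mod_cast hz.2.1
      have hz3 : nm z ≤ b := by exact_mod_cast hz.2.2
      have h3 := ann_inv b (nm z) hz.1 hz3
      rw [div_eq_mul_one_div, h3, mul_add, mul_comm (f z) (1 / (b : ℂ))]
      congr 1
      rw [Finset.mul_sum]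
      have h4 : Ico (nm z) b = (Ico a b).filter (fun j => nm z ≤ j) := by
        ext j
        simp only [mem_Ico, mem_filter]
        constructor
        · rintro ⟨h5, h6⟩
          exact ⟨⟨by omega, h6⟩, h5⟩
        · rintro ⟨⟨_, h6⟩, h5⟩
          exact ⟨h5, h6⟩
      rw [h4, Finset.sum_filter]
      refine Finset.sum_congr rfl (fun j _ => ?_)
      split_ifs
      · ring
      · ring
    rw [Finset.sum_congr rfl h2, Finset.sum_add_distrib, ← Finset.mul_sum]
    congr 1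
    rw [Finset.sum_comm]
    refine Finset.sum_congr rfl (fun j hj => ?_)
    rw [← Finset.mul_sum, ← Finset.sum_filter]
    congr 1
    refine Finset.sum_congr ?_ (fun _ _ => rfl)
    ext z
    rw [mem_filter, mem_ann, mem_ann]
    rw [mem_Ico] at hj
    have hjb : (j : ℝ) ≤ b := by exact_mod_cast hj.2.le
    constructor
    · rintro ⟨⟨h3, h4, _⟩, h5⟩
      exact ⟨h3, h4, by exact_mod_cast h5⟩
    · rintro ⟨h3, h4, h5⟩
      exact ⟨⟨h3, h4, h5.trans hjb⟩, by exact_mod_cast h5⟩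
  rw [h1]
  have hb0 : (0 : ℝ) < b := by
    have : 0 < b := by omega
    exact_mod_cast this
  have h5 : ‖(1 / (b : ℂ)) * ∑ z ∈ ann a b, f z‖ ≤ (1 / (b : ℝ)) * V := by
    rw [norm_mul, norm_div, norm_one, Complex.norm_natCast]
    exact mul_le_mul_of_nonneg_left (hV b hab le_rfl) (by positivity)
  have h6 : ‖∑ j ∈ Ico a b, (1 / ((j : ℂ) * (j + 1))) * ∑ z ∈ ann a j, f z‖ ≤
      (∑ j ∈ Ico a b, 1 / ((j : ℝ) * (j + 1))) * V := by
    rw [Finset.sum_mul]
    refine (norm_sum_le _ _).trans (Finset.sum_le_sum (fun j hj => ?_))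
    rw [mem_Ico] at hj
    rw [norm_mul, norm_div, norm_one, norm_mul, Complex.norm_natCast]
    have h7 : ‖(j : ℂ) + 1‖ = (j : ℝ) + 1 := by
      have : (j : ℂ) + 1 = ((j + 1 : ℕ) : ℂ) := by push_cast; ring
      rw [this, Complex.norm_natCast]
      push_cast; ring
    rw [h7]
    exact mul_le_mul_of_nonneg_left (hV j hj.1 hj.2.le) (by positivity)
  have h8 : (1 / (a : ℝ)) = 1 / (b : ℝ) + ∑ j ∈ Ico a b, 1 / ((j : ℝ) * (j + 1)) := by
    have := ann_inv b a ha hab
    have h9 : ((1 / (a : ℝ) : ℝ) : ℂ) =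
        ((1 / (b : ℝ) + ∑ j ∈ Ico a b, 1 / ((j : ℝ) * (j + 1)) : ℝ) : ℂ) := by
      push_cast
      exact this
    exact_mod_cast h9
  calc _ ≤ (1 / (b : ℝ)) * V + (∑ j ∈ Ico a b, 1 / ((j : ℝ) * (j + 1))) * V :=
        (norm_add_le _ _).trans (add_le_add h5 h6)
    _ = V / a := by rw [← add_mul, ← h8]; ring

/-- an annulus depends on the integer parts of the radii only -/
lemma ann_floor {A B : ℝ} (hA : 0 ≤ A) (hB : 0 ≤ B) :
    ann A B = ann ((⌊A⌋₊ : ℕ) : ℝ) ((⌊B⌋₊ : ℕ) : ℝ) := by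
  ext z
  rw [mem_ann, mem_ann]
  refine and_congr_right (fun _ => and_congr ?_ ?_)
  · rw [Nat.cast_lt]
    exact (Nat.floor_lt hA).symm
  · rw [Nat.cast_le]
    exact (Nat.le_floor_iff hB).symm

/-- sums over an annulus as differences of sums over discs -/
lemma sum_ann (f : GaussianInt → ℂ) {A B : ℝ} (hAB : A ≤ B) :
    ∑ z ∈ ann A B, f z = ∑ z ∈ ball B, f z - ∑ z ∈ ball A, f z := by
  classical
  have h : ball B = ann A B ∪ ball A := by
    ext z
    rw [mem_union, mem_ann, mem_ball, mem_ball]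
    constructor
    · rintro ⟨h1, h2⟩
      by_cases h3 : (nm z : ℝ) ≤ A
      · exact Or.inr ⟨h1, h3⟩
      · exact Or.inl ⟨h1, not_le.1 h3, h2⟩
    · rintro (⟨h1, _, h2⟩ | ⟨h1, h2⟩)
      · exact ⟨h1, h2⟩
      · exact ⟨h1, h2.trans hAB⟩
  have hd : Disjoint (ann A B) (ball A) := by
    rw [Finset.disjoint_left]
    intro z h1 h2
    rw [mem_ann] at h1
    rw [mem_ball] at h2
    linarith [h1.2.1, h2.2]
  rw [h, Finset.sum_union hd]
  ring

/-- multiplication by `γ` maps annuli to annuli -/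
lemma sum_ann_dvd (F : GaussianInt → ℂ) (γ : GaussianInt) (hγ : γ ≠ 0) (A B : ℝ) :
    (open scoped Classical in ∑ z ∈ (ann A B).filter (fun z => γ ∣ z), F z) =
      ∑ z ∈ ann (A / nm γ) (B / nm γ), F (γ * z) := by
  classical
  have hpos := nm_posR hγ
  symm
  refine Finset.sum_bij (fun z _ => γ * z) ?_ ?_ ?_ ?_
  · intro z hz
    rw [mem_ann] at hz
    rw [mem_filter, mem_ann, nm_mul]
    refine ⟨⟨Nat.mul_pos (nm_pos hγ) hz.1, ?_, ?_⟩, Dvd.intro _ rfl⟩
    · push_cast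
      have := hz.2.1
      rw [div_lt_iff₀ hpos] at this
      linarith
    · push_cast
      have := hz.2.2
      rw [le_div_iff₀ hpos] at this
      linarith
  · intro z₁ _ z₂ _ h
    exact mul_left_cancel₀ hγ h
  · intro z hz
    rw [mem_filter, mem_ann] at hz
    obtain ⟨⟨h1, h2, h3⟩, t, ht⟩ := hz
    refine ⟨t, ?_, ht.symm⟩
    have ht0 : t ≠ 0 := by
      rintro rfl
      rw [mul_zero] at ht
      rw [ht, nm_zero] at h1
      omega
    rw [ht, nm_mul] at h2 h3
    push_cast at h2 h3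
    rw [mem_ann]
    refine ⟨nm_pos ht0, ?_, ?_⟩
    · rw [div_lt_iff₀ hpos]; linarith
    · rw [le_div_iff₀ hpos]; linarith
  · intro z _
    rfl

end Pool.Agent.W216.GM
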