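import Pool.Agent.W216.GM.SelA
import Pool.Agent.H376R2.MR.Sel

/-!
Project GM, task P (helper216): the two-sided Selberg sieve for Gaussian integers.
-/

set_option autoImplicit false

namespace Pool.Agent.W216.GM

open Finset Filter
open Pool.Agent.H376R2.MR Pool.Agent.H970R2.X Pool.Agent.W78.GM
open GaussianInt (toComplex)

/-- the Fejer weight at `z` -/
noncomputable def FF (R : ℕ) (k : ℤ) (φ : ℝ) (z : GaussianInt) : ℝ :=
  FR R (k * ang z + φ) / (nm z : ℝ)

lemma FF_nonneg (R : ℕ) (k : ℤ) (φ : ℝ) (z : GaussianInt) : 0 ≤ FF R k φ z :=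
  div_nonneg (Fj_nonneg R _) (Nat.cast_nonneg _)

open scoped Classical in
/-- the sum over the multiples of `gam a b` in the annulus -/
noncomputable def Xg (A B : ℝ) (R : ℕ) (k : ℤ) (φ : ℝ) (a b : ℕ) : ℝ :=
  ∑ z ∈ (ann A B).filter (fun z => gam a b ∣ z), FF R k φ z

open scoped Classical in
/-- Selberg weight -/
noncomputable def Wl (D : ℕ) (l : ℕ → ℝ) (z : GaussianInt) : ℝ :=
  ∑ d ∈ Icc 1 D, if wd d ∣ z then l d else 0

open scoped Classical in
lemma Wl_sq (D : ℕ) (l : ℕ → ℝ) (hl : ∀ d, l d ≠ 0 → Gd d) (z : GaussianInt) :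
    Wl D l z ^ 2 = ∑ x ∈ Icc 1 D ×ˢ Icc 1 D,
      (l x.1 * l x.2) * (if wd (Nat.lcm x.1 x.2) ∣ z then 1 else 0) := by
  unfold Wl
  rw [sq, Finset.sum_mul_sum, Finset.sum_product]
  refine Finset.sum_congr rfl (fun d _ => Finset.sum_congr rfl (fun e _ => ?_))
  by_cases h1 : l d = 0
  · simp [h1]
  by_cases h2 : l e = 0
  · simp [h2]
  have h3 := wd_lcm_dvd_iff (hl d h1) (hl e h2) z
  simp only
  by_cases h4 : wd d ∣ z
  · by_cases h5 : wd e ∣ z
    · rw [if_pos h4, if_pos h5, if_pos (h3.2 ⟨h4, h5⟩)]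
      ring
    · rw [if_neg h5, if_neg (fun h => h5 (h3.1 h).2)]
      ring
  · rw [if_neg h4, if_neg (fun h => h4 (h3.1 h).1)]
    ring

/-- the sieve inequality -/
theorem sel_main (H v R D : ℕ) (k : ℤ) (φ A B : ℝ) (l : ℕ → ℝ) (hl1 : l 1 = 1)
    (hl : ∀ d, |l d| ≤ 1) (hlG : ∀ d, l d ≠ 0 → Gd d) (hD1 : 1 ≤ D)
    (hcell : ∀ p ∈ cellP (P1 4) H v, D < p ∧ A < (p : ℝ) ∧ (p : ℝ) ≤ B)
    (ρ E : ℝ) (hE : 0 ≤ E)
    (hX : ∀ a b : ℕ, Gd a → Gd b → a ≤ D ^ 2 → b ≤ D ^ 2 →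
      |Xg A B R k φ a b - ρ / ((a : ℝ) * b)| ≤ E / ((a : ℝ) * b)) :
    ∑ p ∈ cellP (P1 4) H v, FR R (k * ang (gp p) + φ) / (p : ℝ) ≤
      ρ * (∑ d ∈ Icc 1 D, ∑ e ∈ Icc 1 D, l d * l e / (Nat.lcm d e : ℝ)) ^ 2 +
        E * ((1 + Real.log D) ^ 3) ^ 2 := by
  classical
  -- the primes in the cell
  have hprime : ∀ p ∈ cellP (P1 4) H v, p.Prime ∧ p % 4 = 1 := by
    intro p hp
    unfold cellP at hp
    rw [mem_filter] at hp
    unfold cell at hp
    rw [mem_filter] at hp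
    refine ⟨hp.1.2.1, ?_⟩
    have := hp.2
    simpa [P1] using this
  have hstep1 : ∑ p ∈ cellP (P1 4) H v, FR R (k * ang (gp p) + φ) / (p : ℝ) ≤
      ∑ z ∈ ann A B, Wl D l z ^ 2 * Wl D l (star z) ^ 2 * FF R k φ z := by
    have hW : ∀ p ∈ cellP (P1 4) H v, ∀ z : GaussianInt, nm z = p → Wl D l z = 1 := by
      intro p hp z hz
      unfold Wl
      rw [Finset.sum_eq_single 1]
      · rw [wd_one, if_pos (one_dvd z), hl1]
      · intro d hd hd1
        rw [mem_Icc] at hd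
        by_cases h0 : l d = 0
        · simp [h0]
        · rw [if_neg]
          exact not_wd_dvd (hprime p hp).1 hz (hlG d h0) hd1 (lt_of_le_of_lt hd.2 (hcell p hp).1)
      · intro h
        exact absurd (Finset.mem_Icc.2 ⟨le_refl 1, hD1⟩) h
    have hinj : Set.InjOn gp (↑(cellP (P1 4) H v) : Set ℕ) := by
      intro p hp q hq h
      have h1 := gp_nm (hprime p hp).1 (hprime p hp).2
      have h2 := gp_nm (hprime q hq).1 (hprime q hq).2
      rw [← h1, ← h2, h]
    have h1 : ∑ p ∈ cellP (P1 4) H v, FR R (k * ang (gp p) + φ) / (p : ℝ) =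
        ∑ z ∈ (cellP (P1 4) H v).image gp, Wl D l z ^ 2 * Wl D l (star z) ^ 2 * FF R k φ z := by
      rw [Finset.sum_image hinj]
      refine Finset.sum_congr rfl (fun p hp => ?_)
      have h2 := gp_nm (hprime p hp).1 (hprime p hp).2
      rw [hW p hp (gp p) h2, hW p hp (star (gp p)) (by rw [nm_star, h2])]
      unfold FF
      rw [h2]
      ring
    rw [h1]
    refine Finset.sum_le_sum_of_subset_of_nonneg ?_ (fun z _ _ => ?_)
    · intro z hz
      rw [mem_image] at hz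
      obtain ⟨p, hp, rfl⟩ := hz
      have h2 := gp_nm (hprime p hp).1 (hprime p hp).2
      rw [mem_ann, h2]
      exact ⟨(hprime p hp).1.pos, (hcell p hp).2.1, (hcell p hp).2.2⟩
    · exact mul_nonneg (mul_nonneg (sq_nonneg _) (sq_nonneg _)) (FF_nonneg _ _ _ _)
  set P : Finset (ℕ × ℕ) := Icc 1 D ×ˢ Icc 1 D with hP
  set c : ℕ × ℕ → ℝ := fun x => l x.1 * l x.2 with hc
  set L : ℕ × ℕ → ℕ := fun x => Nat.lcm x.1 x.2 with hL
  have hcG : ∀ x, c x ≠ 0 → Gd (L x) := by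
    intro x hx
    have h1 : l x.1 ≠ 0 := left_ne_zero_of_mul hx
    have h2 : l x.2 ≠ 0 := right_ne_zero_of_mul hx
    exact (hlG _ h1).lcm (hlG _ h2)
  have hc1 : ∀ x, |c x| ≤ 1 := by
    intro x
    simp only [hc]
    rw [abs_mul]
    exact mul_le_one₀ (hl _) (abs_nonneg _) (hl _)
  have hstep2 : ∑ z ∈ ann A B, Wl D l z ^ 2 * Wl D l (star z) ^ 2 * FF R k φ z =
      ∑ x ∈ P, ∑ y ∈ P, c x * c y * Xg A B R k φ (L x) (L y) := by
    have h1 : ∀ z ∈ ann A B, Wl D l z ^ 2 * Wl D l (star z) ^ 2 * FF R k φ z =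
        ∑ x ∈ P, ∑ y ∈ P, c x * c y * (if gam (L x) (L y) ∣ z then FF R k φ z else 0) := by
      intro z _
      rw [Wl_sq D l hlG, Wl_sq D l hlG, Finset.sum_mul_sum, Finset.sum_mul]
      refine Finset.sum_congr rfl (fun x _ => ?_)
      rw [Finset.sum_mul]
      refine Finset.sum_congr rfl (fun y _ => ?_)
      by_cases hx : c x = 0
      · have hx' : l x.1 * l x.2 = 0 := hx
        rw [hx, hx']
        ring
      by_cases hy : c y = 0
      · have hy' : l y.1 * l y.2 = 0 := hy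
        rw [hy, hy']
        ring
      have h3 := gam_dvd_iff (hcG x hx) (hcG y hy) z
      by_cases h4 : wd (L x) ∣ z
      · by_cases h5 : wd (L y) ∣ star z
        · rw [if_pos h4, if_pos h5, if_pos (h3.2 ⟨h4, h5⟩)]
          ring
        · rw [if_neg h5, if_neg (fun h => h5 (h3.1 h).2)]
          ring
      · rw [if_neg h4, if_neg (fun h => h4 (h3.1 h).1)]
        ring
    rw [Finset.sum_congr rfl h1, Finset.sum_comm]
    refine Finset.sum_congr rfl (fun x _ => ?_)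
    rw [Finset.sum_comm]
    refine Finset.sum_congr rfl (fun y _ => ?_)
    rw [← Finset.mul_sum]
    unfold Xg
    rw [← Finset.sum_filter]
  have hlcm : ∀ x ∈ P, L x ≤ D ^ 2 := by
    intro x hx
    rw [hP, mem_product, mem_Icc, mem_Icc] at hx
    refine le_trans (Nat.lcm_le_mul (by omega) (by omega)) ?_
    rw [sq]
    exact Nat.mul_le_mul hx.1.2 hx.2.2
  have hstep3 : ∑ x ∈ P, ∑ y ∈ P, c x * c y * Xg A B R k φ (L x) (L y) ≤
      ∑ x ∈ P, ∑ y ∈ P, (ρ * ((c x / (L x : ℝ)) * (c y / (L y : ℝ))) +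
        E * ((1 / (L x : ℝ)) * (1 / (L y : ℝ)))) := by
    refine Finset.sum_le_sum (fun x hx => Finset.sum_le_sum (fun y hy => ?_))
    have hrhs0 : 0 ≤ E * ((1 / (L x : ℝ)) * (1 / (L y : ℝ))) := by positivity
    by_cases hx0 : c x = 0
    · rw [hx0]
      simpa using hrhs0
    by_cases hy0 : c y = 0
    · rw [hy0]
      simpa using hrhs0
    have h1 := hX (L x) (L y) (hcG x hx0) (hcG y hy0) (hlcm x hx) (hlcm y hy)
    have h2 : |c x * c y| ≤ 1 := by
      rw [abs_mul]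
      exact mul_le_one₀ (hc1 _) (abs_nonneg _) (hc1 _)
    have h3 : c x * c y * (Xg A B R k φ (L x) (L y) - ρ / ((L x : ℝ) * (L y : ℝ))) ≤
        E / ((L x : ℝ) * (L y : ℝ)) := by
      refine le_trans (le_abs_self _) ?_
      rw [abs_mul]
      calc |c x * c y| * |Xg A B R k φ (L x) (L y) - ρ / ((L x : ℝ) * (L y : ℝ))|
          ≤ 1 * |Xg A B R k φ (L x) (L y) - ρ / ((L x : ℝ) * (L y : ℝ))| :=
            mul_le_mul_of_nonneg_right h2 (abs_nonneg _)
        _ ≤ _ := by rw [one_mul]; exact h1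
    have h4 : c x * c y * Xg A B R k φ (L x) (L y) =
        ρ * ((c x / (L x : ℝ)) * (c y / (L y : ℝ))) +
          c x * c y * (Xg A B R k φ (L x) (L y) - ρ / ((L x : ℝ) * (L y : ℝ))) := by
      rw [div_mul_div_comm]
      ring
    have h5 : E / ((L x : ℝ) * (L y : ℝ)) = E * ((1 / (L x : ℝ)) * (1 / (L y : ℝ))) := by
      rw [one_div_mul_one_div]
      ring
    rw [h4]
    rw [h5] at h3
    linarith
  have hstep4 : ∑ x ∈ P, ∑ y ∈ P, (ρ * ((c x / (L x : ℝ)) * (c y / (L y : ℝ))) +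
        E * ((1 / (L x : ℝ)) * (1 / (L y : ℝ)))) =
      ρ * (∑ x ∈ P, c x / (L x : ℝ)) ^ 2 + E * (∑ x ∈ P, 1 / (L x : ℝ)) ^ 2 := by
    simp_rw [Finset.sum_add_distrib, ← Finset.mul_sum]
    rw [sq, sq, Finset.sum_mul, Finset.sum_mul]
  have h5 : ∑ x ∈ P, c x / (L x : ℝ) =
      ∑ d ∈ Icc 1 D, ∑ e ∈ Icc 1 D, l d * l e / (Nat.lcm d e : ℝ) := by
    rw [hP, Finset.sum_product]
  have h6 : ∑ x ∈ P, 1 / (L x : ℝ) ≤ (1 + Real.log D) ^ 3 := by
    rw [hP, Finset.sum_product]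
    exact sel_aux_lcm D
  have h7 : 0 ≤ ∑ x ∈ P, 1 / (L x : ℝ) := Finset.sum_nonneg (fun _ _ => by positivity)
  calc _ ≤ _ := hstep1
    _ = _ := hstep2
    _ ≤ _ := hstep3
    _ = _ := hstep4
    _ ≤ _ := by
        rw [h5]
        have h8 := pow_le_pow_left₀ h7 h6 2
        have h9 := mul_le_mul_of_nonneg_left h8 hE
        linarith

/-- the sums over multiples -/
theorem Xg_est (A B : ℝ) (R : ℕ) (hR : 1 ≤ R) (k : ℤ) (φ : ℝ) (a b : ℕ) (ha : Gd a) (hb : Gd b)
    (ρ E0 E1 : ℝ) (hE1 : 0 ≤ E1)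
    (h0 : |∑ z ∈ ann (A / ((a : ℝ) * b)) (B / ((a : ℝ) * b)), 1 / (nm z : ℝ) - ρ| ≤ E0)
    (h1 : ∀ r ∈ FK R, r ≠ 0 →
      ‖∑ z ∈ ann (A / ((a : ℝ) * b)) (B / ((a : ℝ) * b)), ps (r * k) z / (nm z : ℂ)‖ ≤ E1) :
    |Xg A B R k φ a b - ρ / ((a : ℝ) * b)| ≤ (E0 + 2 * R * E1) / ((a : ℝ) * b) := by
  classical
  have hγ : gam a b ≠ 0 := by
    intro h
    have := nm_gam ha hb
    rw [h, nm_zero] at this
    have h2 := Nat.mul_pos ha.pos hb.pos
    omega
  set q : ℝ := (a : ℝ) * b with hq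
  have hqn : ((nm (gam a b) : ℕ) : ℝ) = q := by
    rw [nm_gam ha hb, hq]
    push_cast
    ring
  have hq0 : 0 < q := by
    rw [← hqn]
    exact nm_posR hγ
  have hRpos : (0 : ℝ) < R := by exact_mod_cast hR
  set c : ℤ → ℝ := fun r => 1 - |(r : ℝ)| / R with hc
  have hc0 : ∀ r ∈ FK R, 0 ≤ c r ∧ c r ≤ 1 := by
    intro r hr
    unfold FK at hr
    rw [Finset.mem_Ioo] at hr
    have h1 : |(r : ℝ)| ≤ R := by
      rw [abs_le]
      constructor
      · have := hr.1.le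
        exact_mod_cast this
      · have := hr.2.le
        exact_mod_cast this
    refine ⟨?_, ?_⟩
    · simp only [hc, sub_nonneg]
      rw [div_le_one hRpos]
      exact h1
    · simp only [hc, sub_le_self_iff]
      positivity
  set S : ℤ → ℂ := fun r => ∑ z ∈ ann (A / q) (B / q), ps (r * k) z / (nm z : ℂ) with hS
  -- the expansion
  have hexp : Xg A B R k φ a b =
      ∑ r ∈ FK R, c r * ((er r φ * ps (r * k) (gam a b) * S r).re / q) := by
    have h2 : ((Xg A B R k φ a b : ℝ) : ℂ) =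
        ∑ z ∈ ann (A / q) (B / q), ((FF R k φ (gam a b * z) : ℝ) : ℂ) := by
      unfold Xg
      rw [Complex.ofReal_sum]
      have := sum_ann_dvd (fun z => ((FF R k φ z : ℝ) : ℂ)) (gam a b) hγ A B
      rw [hqn] at this
      convert this
    have h3 : Xg A B R k φ a b = ∑ z ∈ ann (A / q) (B / q), FF R k φ (gam a b * z) := by
      exact_mod_cast h2
    rw [h3]
    have h4 : ∀ z ∈ ann (A / q) (B / q), FF R k φ (gam a b * z) =
        ∑ r ∈ FK R, c r * ((er r φ * ps (r * k) (gam a b) * (ps (r * k) z / (nm z : ℂ))).re / q) := by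
      intro z hz
      rw [mem_ann] at hz
      have hz0 : z ≠ 0 := one_le_nm.1 hz.1
      have hprod : gam a b * z ≠ 0 := mul_ne_zero hγ hz0
      unfold FF FR
      rw [nm_mul, Finset.sum_div]
      refine Finset.sum_congr rfl (fun r _ => ?_)
      have h5 : er r φ * ps (r * k) (gam a b) * (ps (r * k) z / (nm z : ℂ)) =
          Complex.exp (((r * (k * ang (gam a b * z) + φ) : ℝ) : ℂ) * Complex.I) / ((nm z : ℕ) : ℂ) := by
        have h6 : er r φ * ps (r * k) (gam a b) * (ps (r * k) z / (nm z : ℂ)) =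
            er r φ * ps (r * k) (gam a b * z) / (nm z : ℂ) := by
          rw [ps_mul]
          ring
        rw [h6, ps_eq_exp hprod]
        unfold er
        rw [← Complex.exp_add]
        congr 2
        push_cast
        ring
      rw [h5, Complex.div_natCast_re, Complex.exp_ofReal_mul_I_re]
      push_cast
      rw [hqn]
      have hnz : (nm z : ℝ) ≠ 0 := (nm_posR hz0).ne'
      simp only [hc]
      field_simp
    rw [Finset.sum_congr rfl h4, Finset.sum_comm]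
    refine Finset.sum_congr rfl (fun r _ => ?_)
    rw [← Finset.mul_sum]
    congr 1
    rw [hS]
    simp only
    rw [Finset.mul_sum, Complex.re_sum, Finset.sum_div]
  have h0mem : (0 : ℤ) ∈ FK R := by
    unfold FK
    rw [mem_Ioo]
    constructor
    · have : (1 : ℤ) ≤ R := by exact_mod_cast hR
      omega
    · exact_mod_cast hR
  have hzero : c 0 * ((er ((0 : ℤ) : ℝ) φ * ps (0 * k) (gam a b) * S 0).re / q) =
      (∑ z ∈ ann (A / q) (B / q), 1 / (nm z : ℝ)) / q := by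
    have h2 : c 0 = 1 := by simp [hc]
    have h3 : er ((0 : ℤ) : ℝ) φ = 1 := by
      unfold er
      simp
    have h4 : S 0 = ((∑ z ∈ ann (A / q) (B / q), 1 / (nm z : ℝ) : ℝ) : ℂ) := by
      rw [hS]
      simp
    rw [h2, h3, h4, zero_mul, ps_zero, one_mul, one_mul, one_mul, Complex.ofReal_re]
  rw [hexp, ← Finset.add_sum_erase _ _ h0mem]
  have hb1 : |∑ r ∈ (FK R).erase 0, c r * ((er r φ * ps (r * k) (gam a b) * S r).re / q)| ≤
      2 * R * E1 / q := by
    refine (Finset.abs_sum_le_sum_abs _ _).trans ?_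
    have h2 : ∀ r ∈ (FK R).erase 0,
        |c r * ((er r φ * ps (r * k) (gam a b) * S r).re / q)| ≤ E1 / q := by
      intro r hr
      rw [mem_erase] at hr
      have h3 := h1 r hr.2 hr.1
      have h4 := Complex.abs_re_le_norm (er r φ * ps (r * k) (gam a b) * S r)
      rw [norm_mul, norm_mul, sel_aux_er_norm, norm_ps hγ, one_mul, one_mul] at h4
      have hc1 : |c r| ≤ 1 := by
        rw [abs_of_nonneg (hc0 r hr.2).1]
        exact (hc0 r hr.2).2
      rw [abs_mul, abs_div, abs_of_pos hq0]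
      calc |c r| * (|(er r φ * ps (r * k) (gam a b) * S r).re| / q)
          ≤ 1 * (E1 / q) := by
            refine mul_le_mul hc1 ?_ (by positivity) zero_le_one
            exact div_le_div_of_nonneg_right (h4.trans h3) hq0.le
        _ = E1 / q := one_mul _
    refine (Finset.sum_le_sum h2).trans ?_
    rw [Finset.sum_const, nsmul_eq_mul]
    have h6 : (((FK R).erase 0).card : ℝ) ≤ 2 * R := by
      refine le_trans ?_ (sel_aux_card R)
      exact_mod_cast Finset.card_le_card (Finset.erase_subset _ _)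
    have h7 : 0 ≤ E1 / q := by positivity
    calc (((FK R).erase 0).card : ℝ) * (E1 / q) ≤ (2 * R) * (E1 / q) :=
          mul_le_mul_of_nonneg_right h6 h7
      _ = 2 * R * E1 / q := by ring
  rw [hzero]
  have h3 : (∑ z ∈ ann (A / q) (B / q), 1 / (nm z : ℝ)) / q +
      ∑ r ∈ (FK R).erase 0, c r * ((er r φ * ps (r * k) (gam a b) * S r).re / q) - ρ / q =
      ((∑ z ∈ ann (A / q) (B / q), 1 / (nm z : ℝ)) - ρ) / q +
      ∑ r ∈ (FK R).erase 0, c r * ((er r φ * ps (r * k) (gam a b) * S r).re / q) := by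
    ring
  rw [h3]
  refine (abs_add_le _ _).trans ?_
  have h4 : |((∑ z ∈ ann (A / q) (B / q), 1 / (nm z : ℝ)) - ρ) / q| ≤ E0 / q := by
    rw [abs_div, abs_of_pos hq0]
    exact div_le_div_of_nonneg_right h0 hq0.le
  calc _ ≤ E0 / q + 2 * R * E1 / q := add_le_add h4 hb1
    _ = _ := by ring

end Pool.Agent.W216.GM
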