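import Pool.Agent.W216.GM.SelB

/-!
Project GM, task P (helper216): the sieve bound for Gaussian primes in a cell with phases.
-/

set_option autoImplicit false

namespace Pool.Agent.W216.GM

open Finset Filter
open Pool.Agent.H376R2.MR Pool.Agent.H970R2.X Pool.Agent.W78.GM
open GaussianInt (toComplex)

/-- angular sums over an annulus with the weight `1/N z` -/
theorem ang_ann (h : S_ANG) (M : ℕ) : ∃ η : ℝ, 0 < η ∧ ∃ C : ℝ, 0 < C ∧ ∀ (A B : ℝ) (m : ℤ), 2 ≤ A →
    A ≤ B → B ≤ Real.exp 2 * A → m ≠ 0 → |(m : ℝ)| ≤ (A / 2) ^ M →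
    ‖∑ z ∈ ann A B, ps m z / (nm z : ℂ)‖ ≤ C * A ^ (-η) := by
  obtain ⟨η₀, hη₀, C₀, hC₀, hang⟩ := h M
  set η : ℝ := min η₀ (1 / 2) with hη
  have hη1 : 0 < η := lt_min hη₀ (by norm_num)
  have hη2 : η ≤ 1 / 2 := min_le_right _ _
  have hη3 : η ≤ η₀ := min_le_left _ _
  refine ⟨η, hη1, 4 * C₀ * Real.exp 2, by positivity, fun A B m hA hAB hB hm hmA => ?_⟩
  have hA0 : 0 < A := by linarith
  have hB0 : 0 < B := by linarith
  rw [ann_floor hA0.le hB0.le]
  set a : ℕ := ⌊A⌋₊ with ha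
  set b : ℕ := ⌊B⌋₊ with hb
  have ha1 : 1 ≤ a := Nat.le_floor (by push_cast; linarith)
  have hab : a ≤ b := Nat.floor_le_floor hAB
  have haA : A / 2 ≤ a := by
    have := Nat.lt_floor_add_one A
    rw [← ha] at this
    linarith
  have hbB : (b : ℝ) ≤ B := Nat.floor_le hB0.le
  have hball : ∀ j : ℕ, a ≤ j → j ≤ b → ‖∑ z ∈ ball (j : ℝ), ps m z‖ ≤ C₀ * B ^ (1 - η) := by
    intro j hj1 hj2
    have hj : (1 : ℝ) ≤ j := by exact_mod_cast ha1.trans hj1
    have haj : (a : ℝ) ≤ j := by exact_mod_cast hj1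
    have hjb : (j : ℝ) ≤ B := by
      have : (j : ℝ) ≤ b := by exact_mod_cast hj2
      linarith
    have h1 : |(m : ℝ)| ≤ (j : ℝ) ^ M :=
      hmA.trans (pow_le_pow_left₀ (by linarith) (haA.trans haj) M)
    refine (hang j m hj hm h1).trans (mul_le_mul_of_nonneg_left ?_ hC₀.le)
    calc (j : ℝ) ^ (1 - η₀) ≤ (j : ℝ) ^ (1 - η) :=
          Real.rpow_le_rpow_of_exponent_le hj (by linarith)
      _ ≤ B ^ (1 - η) := Real.rpow_le_rpow (by linarith) hjb (by linarith)
  have hV : ∀ j : ℕ, a ≤ j → j ≤ b → ‖∑ z ∈ ann (a : ℝ) j, ps m z‖ ≤ 2 * (C₀ * B ^ (1 - η)) := by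
    intro j hj1 hj2
    rw [sum_ann (fun z => ps m z) (by exact_mod_cast hj1 : (a : ℝ) ≤ j)]
    refine (norm_sub_le _ _).trans ?_
    have h1 := hball j hj1 hj2
    have h2 := hball a le_rfl hab
    linarith
  refine (abel_ann (fun z => ps m z) a b _ ha1 hab hV).trans ?_
  have ha0 : (0 : ℝ) < a := by exact_mod_cast ha1
  have h1 : B ^ (1 - η) ≤ Real.exp 2 * A ^ (1 - η) := by
    calc B ^ (1 - η) ≤ (Real.exp 2 * A) ^ (1 - η) :=
          Real.rpow_le_rpow hB0.le hB (by linarith)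
      _ = Real.exp 2 ^ (1 - η) * A ^ (1 - η) := Real.mul_rpow (Real.exp_pos _).le hA0.le
      _ ≤ Real.exp 2 ^ (1 : ℝ) * A ^ (1 - η) := by
          refine mul_le_mul_of_nonneg_right ?_ (Real.rpow_nonneg hA0.le _)
          refine Real.rpow_le_rpow_of_exponent_le ?_ (by linarith)
          exact Real.one_le_exp (by norm_num)
      _ = _ := by rw [Real.rpow_one]
  have h2 : A ^ (1 - η) = A * A ^ (-η) := by
    rw [sub_eq_add_neg, Real.rpow_add hA0, Real.rpow_one]
  have h3 : 0 ≤ A ^ (-η) := Real.rpow_nonneg hA0.le _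
  rw [div_le_iff₀ ha0]
  calc 2 * (C₀ * B ^ (1 - η)) ≤ 2 * (C₀ * (Real.exp 2 * A ^ (1 - η))) := by gcongr
    _ = 4 * C₀ * Real.exp 2 * A ^ (-η) * (A / 2) := by rw [h2]; ring
    _ ≤ 4 * C₀ * Real.exp 2 * A ^ (-η) * a :=
        mul_le_mul_of_nonneg_left haA (by positivity)

lemma ev_small (K δ : ℝ) (hK : 0 ≤ K) (hδ : 0 < δ) :
    ∀ᶠ v : ℕ in atTop, K * Real.exp (-(δ * v)) * ((1 + (v : ℝ)) ^ 3) ^ 2 ≤ 1 / v := by
  have h6 := tendsto_rpow_mul_exp_neg_mul_atTop_nhds_zero 7 δ hδ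
  have h7 : Tendsto (fun v : ℕ => 1 + (v : ℝ)) atTop atTop :=
    tendsto_atTop_add_const_left _ _ tendsto_natCast_atTop_atTop
  have h8 := (h6.comp h7).const_mul (K * Real.exp δ)
  rw [mul_zero] at h8
  have h9 := h8.eventually (gt_mem_nhds (zero_lt_one))
  filter_upwards [h9, eventually_ge_atTop 1] with v hv hv1
  have hv0 : (1 : ℝ) ≤ v := by exact_mod_cast hv1
  have e1 : (1 + (v : ℝ)) ^ (7 : ℝ) = (1 + (v : ℝ)) ^ (7 : ℕ) := by
    rw [← Real.rpow_natCast]
    norm_num
  have e2 : Real.exp (-(δ * v)) = Real.exp δ * Real.exp (-δ * (1 + (v : ℝ))) := by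
    rw [← Real.exp_add]
    congr 1
    ring
  simp only [Function.comp] at hv
  rw [e1] at hv
  rw [le_div_iff₀ (by linarith), e2]
  have h10 : K * (Real.exp δ * Real.exp (-δ * (1 + (v : ℝ)))) * ((1 + (v : ℝ)) ^ 3) ^ 2 * v ≤
      K * Real.exp δ * ((1 + (v : ℝ)) ^ 7 * Real.exp (-δ * (1 + (v : ℝ)))) := by
    have h11 : K * (Real.exp δ * Real.exp (-δ * (1 + (v : ℝ)))) * ((1 + (v : ℝ)) ^ 3) ^ 2 * v =
        (K * Real.exp δ * Real.exp (-δ * (1 + (v : ℝ)))) * ((1 + (v : ℝ)) ^ 6 * v) := by ring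
    have h12 : K * Real.exp δ * ((1 + (v : ℝ)) ^ 7 * Real.exp (-δ * (1 + (v : ℝ)))) =
        (K * Real.exp δ * Real.exp (-δ * (1 + (v : ℝ)))) * ((1 + (v : ℝ)) ^ 6 * (1 + v)) := by ring
    rw [h11, h12]
    refine mul_le_mul_of_nonneg_left ?_ (by positivity)
    exact mul_le_mul_of_nonneg_left (by linarith) (by positivity)
  linarith

theorem selg_of : S_ANG → S_LAT → S_SELH → S_SELG := by
  classical
  intro hANG hLAT hSELH
  obtain ⟨C₂, hC₂, hsel⟩ := hSELH
  obtain ⟨C₀, hC₀, -, hlat⟩ := hLAT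
  refine ⟨64 * Real.pi * C₂ ^ 2 + 1, by positivity, fun M H R hH hR => ?_⟩
  have hHpos : (0 : ℝ) < H := by exact_mod_cast hH
  have hH1 : (1 : ℝ) ≤ H := by exact_mod_cast hH
  have hRpos : (0 : ℝ) < R := by exact_mod_cast hR
  obtain ⟨η, hη, C₁, hC₁, hann⟩ := ang_ann hANG (4 * M + 4)
  set δ : ℝ := min (1 / (4 * H)) (η / (2 * H)) with hδ
  have hδ0 : 0 < δ := lt_min (by positivity) (by positivity)
  have hδ1 : δ ≤ 1 / (4 * H) := min_le_left _ _
  have hδ2 : δ ≤ η / (2 * H) := min_le_right _ _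
  have hev1 := ev_small (C₀ + 2 * R * C₁) δ (by positivity) hδ0
  have hev2 : ∀ᶠ v : ℕ in atTop, (R : ℝ) ≤ Real.exp ((v : ℝ) / H) := by
    have h1 : Tendsto (fun v : ℕ => Real.exp ((v : ℝ) / H)) atTop atTop :=
      Real.tendsto_exp_atTop.comp (tendsto_natCast_atTop_atTop.atTop_div_const hHpos)
    exact h1.eventually_ge_atTop _
  have hev3 : ∀ᶠ v : ℕ in atTop, (2 : ℝ) ≤ Real.exp ((v : ℝ) / (16 * H)) := by
    have h1 : Tendsto (fun v : ℕ => Real.exp ((v : ℝ) / (16 * H))) atTop atTop :=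
      Real.tendsto_exp_atTop.comp (tendsto_natCast_atTop_atTop.atTop_div_const (by positivity))
    exact h1.eventually_ge_atTop _
  have hev4 : ∀ᶠ v : ℕ in atTop, Real.log 2 ≤ (v : ℝ) / (32 * H) := by
    have h1 : Tendsto (fun v : ℕ => (v : ℝ) / (32 * H)) atTop atTop :=
      tendsto_natCast_atTop_atTop.atTop_div_const (by positivity)
    exact h1.eventually_ge_atTop _
  obtain ⟨v₀, hv₀⟩ := eventually_atTop.1 (hev1.and (hev2.and (hev3.and (hev4.and
    (eventually_ge_atTop 4)))))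
  refine ⟨v₀, fun v hv k hk0 hk φ => ?_⟩
  obtain ⟨h1, h2, h3, h4, h5⟩ := hv₀ v hv
  have hv4 : (4 : ℝ) ≤ v := by exact_mod_cast h5
  have hvpos : (0 : ℝ) < v := by linarith
  set D : ℕ := ⌊Real.exp ((v : ℝ) / (16 * H))⌋₊ with hD
  have hD2 : 2 ≤ D := by
    rw [hD]
    exact Nat.le_floor (by exact_mod_cast h3)
  have hDle : (D : ℝ) ≤ Real.exp ((v : ℝ) / (16 * H)) := Nat.floor_le (Real.exp_pos _).le
  have hDge : Real.exp ((v : ℝ) / (16 * H)) / 2 ≤ D := by
    have := Nat.lt_floor_add_one (Real.exp ((v : ℝ) / (16 * H)))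
    rw [← hD] at this
    linarith
  have hlogD1 : (v : ℝ) / (32 * H) ≤ Real.log D := by
    have h6 := Real.log_le_log (by positivity) hDge
    rw [Real.log_div (Real.exp_pos _).ne' (by norm_num), Real.log_exp] at h6
    have h7 : (v : ℝ) / (16 * H) = (v : ℝ) / (32 * H) + (v : ℝ) / (32 * H) := by
      field_simp
      norm_num
    linarith
  have hDpos : (0 : ℝ) < D := by
    have : 0 < D := by omega
    exact_mod_cast this
  have hlogD2 : Real.log D ≤ v := by
    have h6 := Real.log_le_log hDpos hDle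
    rw [Real.log_exp] at h6
    refine le_trans h6 ?_
    refine div_le_self hvpos.le ?_
    linarith
  have hlogDpos : 0 < Real.log D := lt_of_lt_of_le (by positivity) hlogD1
  obtain ⟨l, hl1, hl, hlD, hSel0, hSel1⟩ := hsel D hD2
  have hlG : ∀ d, l d ≠ 0 → Gd d := fun d hd => (hlD d hd).2.2
  set A : ℝ := Real.exp (((v : ℝ) - 1) / H) with hA
  set B : ℝ := Real.exp (((v : ℝ) + 1) / H) with hB
  have hcell : ∀ p ∈ cellP (P1 4) H v, D < p ∧ A < (p : ℝ) ∧ (p : ℝ) ≤ B := by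
    intro p hp
    unfold cellP at hp
    rw [mem_filter] at hp
    have hp1 := hp.1
    unfold cell at hp1
    rw [Finset.mem_filter] at hp1
    have hp0 : (0 : ℝ) < p := by exact_mod_cast hp1.2.1.pos
    have h6 := (Real.le_log_iff_exp_le hp0).1 hp1.2.2.1
    have h7 := (Real.log_lt_iff_lt_exp hp0).1 hp1.2.2.2
    refine ⟨?_, ?_, h7.le⟩
    · have h8 : Real.exp ((v : ℝ) / (16 * H)) < Real.exp ((v : ℝ) / H) := by
        rw [Real.exp_lt_exp]
        refine div_lt_div_of_pos_left hvpos hHpos ?_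
        linarith
      have h9 : (D : ℝ) < p := by linarith
      exact_mod_cast h9
    · refine lt_of_lt_of_le ?_ h6
      rw [hA, Real.exp_lt_exp]
      exact div_lt_div_of_pos_right (by linarith) hHpos
  set E0 : ℝ := C₀ * Real.exp (-(δ * v)) with hE0
  set E1 : ℝ := C₁ * Real.exp (-(δ * v)) with hE1
  have hlogBA : ∀ q : ℝ, 0 < q → Real.log ((B / q) / (A / q)) = 2 / H := by
    intro q hq
    rw [div_div_div_cancel_right₀ hq.ne', hA, hB, ← Real.exp_sub, Real.log_exp]
    ring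
  have hX : ∀ a b : ℕ, Gd a → Gd b → a ≤ D ^ 2 → b ≤ D ^ 2 →
      |Xg A B R k φ a b - (Real.pi * (2 / H)) / ((a : ℝ) * b)| ≤
        (E0 + 2 * R * E1) / ((a : ℝ) * b) := by
    intro a b ha hb haD hbD
    have ha0 : (0 : ℝ) < a := by exact_mod_cast ha.pos
    have hb0 : (0 : ℝ) < b := by exact_mod_cast hb.pos
    have hq0 : (0 : ℝ) < (a : ℝ) * b := by positivity
    have hqD : (a : ℝ) * b ≤ Real.exp ((v : ℝ) / (4 * H)) := by
      have h6 : (a : ℝ) ≤ (D : ℝ) ^ 2 := by exact_mod_cast haD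
      have h7 : (b : ℝ) ≤ (D : ℝ) ^ 2 := by exact_mod_cast hbD
      calc (a : ℝ) * b ≤ (D : ℝ) ^ 2 * (D : ℝ) ^ 2 := by gcongr
        _ = (D : ℝ) ^ 4 := by ring
        _ ≤ Real.exp ((v : ℝ) / (16 * H)) ^ 4 := by gcongr
        _ = Real.exp ((v : ℝ) / (4 * H)) := by
            rw [← Real.exp_nat_mul]
            congr 1
            push_cast
            field_simp
            norm_num
    have hA' : Real.exp ((v : ℝ) / (2 * H)) ≤ A / ((a : ℝ) * b) := by
      rw [le_div_iff₀ hq0]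
      calc Real.exp ((v : ℝ) / (2 * H)) * ((a : ℝ) * b) ≤
            Real.exp ((v : ℝ) / (2 * H)) * Real.exp ((v : ℝ) / (4 * H)) := by gcongr
        _ = Real.exp ((v : ℝ) / (2 * H) + (v : ℝ) / (4 * H)) := by rw [Real.exp_add]
        _ ≤ A := by
            rw [hA, Real.exp_le_exp]
            have h8 : (v : ℝ) / (2 * H) + (v : ℝ) / (4 * H) = (3 * v / 4) / H := by
              field_simp
              norm_num
            rw [h8]
            exact div_le_div_of_nonneg_right (by linarith) hHpos.le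
    have hexp1 : (2 : ℝ) ≤ Real.exp ((v : ℝ) / (4 * H)) := by
      refine h3.trans ?_
      rw [Real.exp_le_exp]
      refine div_le_div_of_nonneg_left hvpos.le (by positivity) ?_
      linarith
    have hexp2 : Real.exp ((v : ℝ) / (2 * H)) =
        Real.exp ((v : ℝ) / (4 * H)) * Real.exp ((v : ℝ) / (4 * H)) := by
      rw [← Real.exp_add]
      congr 1
      field_simp
      norm_num
    have hApos : 0 < A / ((a : ℝ) * b) := lt_of_lt_of_le (Real.exp_pos _) hA'
    have hA2 : 2 ≤ A / ((a : ℝ) * b) := by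
      refine le_trans ?_ hA'
      rw [hexp2]
      nlinarith
    have hAB : A / ((a : ℝ) * b) ≤ B / ((a : ℝ) * b) := by
      refine div_le_div_of_nonneg_right ?_ hq0.le
      rw [hA, hB, Real.exp_le_exp]
      exact div_le_div_of_nonneg_right (by linarith) hHpos.le
    refine Xg_est A B R hR k φ a b ha hb (Real.pi * (2 / H)) E0 E1 (by positivity) ?_ ?_
    · have h6 := hlat (A / ((a : ℝ) * b)) (B / ((a : ℝ) * b)) (by linarith) hAB
      rw [hlogBA _ hq0] at h6
      refine h6.trans ?_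
      rw [hE0, div_eq_mul_inv]
      refine mul_le_mul_of_nonneg_left ?_ hC₀.le
      rw [← Real.sqrt_inv]
      refine Real.sqrt_le_iff.2 ⟨(Real.exp_pos _).le, ?_⟩
      calc (A / ((a : ℝ) * b))⁻¹ ≤ (Real.exp ((v : ℝ) / (2 * H)))⁻¹ :=
            inv_anti₀ (Real.exp_pos _) hA'
        _ = Real.exp (-((v : ℝ) / (2 * H))) := by rw [Real.exp_neg]
        _ ≤ Real.exp (2 * (-(δ * v))) := by
            rw [Real.exp_le_exp]
            have h7 : δ * v ≤ 1 / (4 * H) * v := mul_le_mul_of_nonneg_right hδ1 hvpos.le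
            have h8 : (v : ℝ) / (2 * H) = 2 * (1 / (4 * H) * v) := by
              field_simp
              norm_num
            linarith
        _ = Real.exp (-(δ * v)) ^ 2 := by
            rw [← Real.exp_nat_mul]
            push_cast
            rfl
    · intro r hr hr0
      have hrR : |(r : ℝ)| ≤ R := by
        unfold FK at hr
        rw [Finset.mem_Ioo] at hr
        rw [abs_le]
        constructor
        · have := hr.1.le
          exact_mod_cast this
        · have := hr.2.le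
          exact_mod_cast this
      have h6 := hann (A / ((a : ℝ) * b)) (B / ((a : ℝ) * b)) (r * k) hA2 hAB ?_
        (mul_ne_zero hr0 hk0) ?_
      · refine h6.trans ?_
        rw [hE1]
        refine mul_le_mul_of_nonneg_left ?_ hC₁.le
        rw [Real.rpow_neg hApos.le]
        have h7 : Real.exp (δ * v) ≤ (A / ((a : ℝ) * b)) ^ η := by
          calc Real.exp (δ * v) ≤ Real.exp ((v : ℝ) / (2 * H) * η) := by
                rw [Real.exp_le_exp]
                have h7 : δ * v ≤ η / (2 * H) * v := mul_le_mul_of_nonneg_right hδ2 hvpos.le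
                refine h7.trans (le_of_eq ?_)
                ring
            _ = Real.exp ((v : ℝ) / (2 * H)) ^ η := by rw [Real.exp_mul]
            _ ≤ _ := Real.rpow_le_rpow (Real.exp_pos _).le hA' hη.le
        calc ((A / ((a : ℝ) * b)) ^ η)⁻¹ ≤ (Real.exp (δ * v))⁻¹ := inv_anti₀ (Real.exp_pos _) h7
          _ = _ := by rw [Real.exp_neg]
      · -- `B' ≤ e^2 A'`
        rw [← mul_div_assoc]
        refine div_le_div_of_nonneg_right ?_ hq0.le
        rw [hA, hB, ← Real.exp_add, Real.exp_le_exp]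
        have h7 : ((v : ℝ) + 1) / H = ((v : ℝ) - 1) / H + 2 / H := by ring
        rw [h7]
        have h8 : 2 / (H : ℝ) ≤ 2 := div_le_self (by norm_num) hH1
        linarith
      · push_cast
        rw [abs_mul]
        have h7 : Real.exp ((v : ℝ) / (4 * H)) ≤ A / ((a : ℝ) * b) / 2 := by
          rw [le_div_iff₀ (by norm_num : (0 : ℝ) < 2)]
          refine le_trans ?_ hA'
          rw [hexp2]
          exact mul_le_mul_of_nonneg_left hexp1 (Real.exp_pos _).le
        calc |(r : ℝ)| * |(k : ℝ)| ≤ Real.exp ((v : ℝ) / H) * Real.exp (M * (v : ℝ) / H) :=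
              mul_le_mul (le_trans hrR h2) hk (abs_nonneg _) (Real.exp_pos _).le
          _ = Real.exp ((v : ℝ) / (4 * H)) ^ (4 * M + 4) := by
              rw [← Real.exp_add, ← Real.exp_nat_mul]
              congr 1
              push_cast
              field_simp
              ring
          _ ≤ _ := pow_le_pow_left₀ (Real.exp_pos _).le h7 _
  have hmain := sel_main H v R D k φ A B l hl1 hl hlG (by omega) hcell (Real.pi * (2 / H))
    (E0 + 2 * R * E1) (by positivity) hX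
  refine hmain.trans ?_
  have hp1 : Real.pi * (2 / H) *
      (∑ d ∈ Icc 1 D, ∑ e ∈ Icc 1 D, l d * l e / (Nat.lcm d e : ℝ)) ^ 2 ≤
      64 * Real.pi * C₂ ^ 2 / v := by
    have h6 : (∑ d ∈ Icc 1 D, ∑ e ∈ Icc 1 D, l d * l e / (Nat.lcm d e : ℝ)) ^ 2 ≤
        C₂ ^ 2 / Real.log D := by
      refine (pow_le_pow_left₀ hSel0 hSel1 2).trans (le_of_eq ?_)
      rw [div_pow, Real.sq_sqrt hlogDpos.le]
    have h7 : C₂ ^ 2 / Real.log D ≤ C₂ ^ 2 / ((v : ℝ) / (32 * H)) :=
      div_le_div_of_nonneg_left (by positivity) (by positivity) hlogD1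
    calc _ ≤ Real.pi * (2 / H) * (C₂ ^ 2 / ((v : ℝ) / (32 * H))) :=
          mul_le_mul_of_nonneg_left (h6.trans h7) (by positivity)
      _ = _ := by
          field_simp
          norm_num
  have hp2 : (E0 + 2 * R * E1) * ((1 + Real.log D) ^ 3) ^ 2 ≤ 1 / v := by
    refine le_trans ?_ h1
    have h6 : E0 + 2 * R * E1 = (C₀ + 2 * R * C₁) * Real.exp (-(δ * v)) := by
      rw [hE0, hE1]
      ring
    rw [h6]
    refine mul_le_mul_of_nonneg_left ?_ (by positivity)
    refine pow_le_pow_left₀ (by positivity) ?_ 2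
    exact pow_le_pow_left₀ (by linarith) (by linarith) 3
  calc _ ≤ 64 * Real.pi * C₂ ^ 2 / v + 1 / v := add_le_add hp1 hp2
    _ = _ := by ring

end Pool.Agent.W216.GM
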